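import Pool.Agent.helper83.ORE.SpecDE

set_option autoImplicit false

namespace Pool.Agent.ORE

open Module Pool.Agent.GS

open scoped BigOperators

/-- A product of commuting long root elements. -/
theorem DTR_prod {F V ι : Type} [Field F] [AddCommGroup V] [Module F V] (Q : QuadraticForm F V)
    (h2 : (2 : F) = 0) (so : SO Q) (y : Equiv.Perm V)
    (hB : ∀ u d : V, Q u = 0 → Q d = 0 → pb Q u d = 0 → Gq Q y 2 (sq Q u d))
    (e f : ι → V) (he : ∀ l, Q (e l) = 0) (hf : ∀ l, Q (f l) = 0)
    (hee : ∀ l l', pb Q (e l) (e l') = 0) (hff : ∀ l l', pb Q (f l) (f l') = 0)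
    (hef : ∀ l l', pb Q (e l) (f l') = 0) (s : Finset ι) :
    ∃ τ ∈ OmQ Q, Gq Q y (2 * s.card) τ ∧
      ∀ x, τ x = x + ∑ l ∈ s, (pb Q x (e l) • f l + pb Q x (f l) • e l) := by
  classical
  induction s using Finset.induction_on with
  | empty =>
    refine ⟨1, (OmQ Q).one_mem, Gq.one _, fun x => ?_⟩
    rw [Finset.sum_empty, add_zero]
    rfl
  | insert a s ha ih =>
    obtain ⟨τ, h1, h3, h4⟩ := ih
    refine ⟨sq Q (e a) (f a) * τ, (OmQ Q).mul_mem (so _ _ (he a) (hef a a)) h1, ?_, fun x => ?_⟩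
    · have := Gq.mul (hB _ _ (he a) (hf a) (hef a a)) h3 (sq_mem Q (e a) (f a)).1
      rw [Finset.card_insert_of_notMem ha]
      have e1 : 2 * (s.card + 1) = 2 + 2 * s.card := by ring
      rw [e1]
      exact this
    · have k1 : pb Q (∑ l ∈ s, (pb Q x (e l) • f l + pb Q x (f l) • e l)) (e a) = 0 := by
        rw [map_sum, LinearMap.sum_apply]
        refine Finset.sum_eq_zero fun l _ => ?_
        rw [map_add, LinearMap.add_apply, map_smul, map_smul, LinearMap.smul_apply,
          LinearMap.smul_apply, hee, pb_symm Q (f l) (e a), hef, smul_zero, smul_zero, add_zero]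
      have k2 : pb Q (∑ l ∈ s, (pb Q x (e l) • f l + pb Q x (f l) • e l)) (f a) = 0 := by
        rw [map_sum, LinearMap.sum_apply]
        refine Finset.sum_eq_zero fun l _ => ?_
        rw [map_add, LinearMap.add_apply, map_smul, map_smul, LinearMap.smul_apply,
          LinearMap.smul_apply, hef, hff, smul_zero, smul_zero, add_zero]
      have k3 : pb Q (τ x) (e a) = pb Q x (e a) := by
        rw [h4, map_add, LinearMap.add_apply, k1, add_zero]
      have k4 : pb Q (τ x) (f a) = pb Q x (f a) := by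
        rw [h4, map_add, LinearMap.add_apply, k2, add_zero]
      rw [Equiv.Perm.mul_apply, sq_apply h2 (he a) (hef a a), k3, k4, hf, zero_mul, zero_smul,
        add_zero, h4, Finset.sum_insert ha]
      abel

/-- The expansion in an orthonormal basis. -/
theorem DTR_exp {F E : Type} [Field F] [Field E] [Algebra F E] [FiniteDimensional F E]
    (d : ℕ) (w : Basis (Fin d) F E)
    (hw : ∀ l l', Algebra.trace F E (w l * w l') = if l = l' then 1 else 0) (c : E) :
    ∑ l, Algebra.trace F E (c * w l) • w l = c := by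
  have h1 : ∀ l, Algebra.trace F E (c * w l) = w.repr c l := by
    intro l
    conv_lhs => rw [← w.sum_repr c]
    rw [Finset.sum_mul, map_sum]
    have : ∀ m ∈ Finset.univ, Algebra.trace F E (w.repr c m • w m * w l) =
        if m = l then w.repr c m else 0 := by
      intro m _
      rw [smul_mul_assoc, map_smul, hw, smul_eq_mul, mul_ite, mul_one, mul_zero]
    rw [Finset.sum_congr rfl this, Finset.sum_ite_eq' Finset.univ l]
    simp
  rw [Finset.sum_congr rfl fun l _ => by rw [h1 l]]
  exact w.sum_repr c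

theorem DTR (dbl : DBL_stmt) : DTR_stmt := by
  intro F E V _ _ _ _ _ _ _ _ Q h2 so y hBl ρ n ζ hζ d w hw i i' hii'
  classical
  have hB : ∀ u d : V, Q u = 0 → Q d = 0 → pb Q u d = 0 → Gq Q y 2 (sq Q u d) :=
    fun u d hu hd hud => dbl Q h2 y 2 hBl u d hu hd hud
  -- general facts on the diagonal copy
  have hQ : ∀ z : QL ρ, Q (ζ i z + ζ i' z) = 0 := by
    intro z
    rw [Q_add, hζ.q, hζ.q, hζ.o i i' z z hii', add_zero, add2 h2]
  have hP : ∀ z z' : QL ρ, pb Q (ζ i z + ζ i' z) (ζ i z' + ζ i' z') = 0 := by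
    intro z z'
    rw [map_add, map_add, LinearMap.add_apply, LinearMap.add_apply, hζ.f, hζ.f,
      hζ.o i i' z z' hii', hζ.o i' i z z' (Ne.symm hii'), add_zero, zero_add, add2 h2]
  let a : Fin d → QL ρ := fun l => ⟨w l, 0⟩
  let b : Fin d → QL ρ := fun l => ⟨0, w l⟩
  obtain ⟨τ, t1, t2, t3⟩ := DTR_prod Q h2 so y hB (fun l => ζ i (a l) + ζ i' (a l))
    (fun l => ζ i (b l) + ζ i' (b l)) (fun l => hQ _) (fun l => hQ _) (fun l l' => hP _ _)
    (fun l l' => hP _ _) (fun l l' => hP _ _) Finset.univ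
  rw [Finset.card_univ, Fintype.card_fin] at t2
  have hz : ∀ z : QL ρ, ∑ l, (Algebra.trace F E (z.im * w l) • (ζ i (b l) + ζ i' (b l)) +
      Algebra.trace F E (z.re * w l) • (ζ i (a l) + ζ i' (a l))) = ζ i z + ζ i' z := by
    intro z
    have h5 : z = ∑ l, (Algebra.trace F E (z.im * w l) • b l +
        Algebra.trace F E (z.re * w l) • a l) := by
      have g1 : ∀ s : Finset (Fin d), (∑ l ∈ s, (Algebra.trace F E (z.im * w l) • b l +
          Algebra.trace F E (z.re * w l) • a l)) =
          ⟨∑ l ∈ s, Algebra.trace F E (z.re * w l) • w l,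
            ∑ l ∈ s, Algebra.trace F E (z.im * w l) • w l⟩ := by
        intro s
        induction s using Finset.induction_on with
        | empty => rfl
        | insert m s hm ih =>
          rw [Finset.sum_insert hm, ih]
          ext
          · simp [a, b, Finset.sum_insert hm]
          · simp [a, b, Finset.sum_insert hm]
      rw [g1, DTR_exp d w hw, DTR_exp d w hw]
    have h6 : ∀ L : QL ρ →ₗ[F] V, L z = ∑ l, (Algebra.trace F E (z.im * w l) • L (b l) +
        Algebra.trace F E (z.re * w l) • L (a l)) := by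
      intro L
      conv_lhs => rw [h5]
      rw [map_sum]
      refine Finset.sum_congr rfl fun l _ => ?_
      rw [map_add, map_smul, map_smul]
    rw [h6 (ζ i), h6 (ζ i'), ← Finset.sum_add_distrib]
    refine Finset.sum_congr rfl fun l _ => ?_
    rw [smul_add, smul_add]
    abel
  have p1 : ∀ (m : ZMod n) (z : QL ρ) (l : Fin d), pb Q (ζ m z) (ζ m (a l)) =
      Algebra.trace F E (z.im * w l) := by
    intro m z l
    rw [hζ.f]
    simp [a]
  have p2 : ∀ (m : ZMod n) (z : QL ρ) (l : Fin d), pb Q (ζ m z) (ζ m (b l)) =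
      Algebra.trace F E (z.re * w l) := by
    intro m z l
    rw [hζ.f]
    simp [b]
  refine ⟨τ, t1, t2, fun z => ?_, fun z => ?_, fun m h1 h3 z => ?_⟩
  · rw [t3]
    have : ∀ l ∈ Finset.univ, (pb Q (ζ i z) (ζ i (a l) + ζ i' (a l)) • (ζ i (b l) + ζ i' (b l)) +
        pb Q (ζ i z) (ζ i (b l) + ζ i' (b l)) • (ζ i (a l) + ζ i' (a l))) =
        (Algebra.trace F E (z.im * w l) • (ζ i (b l) + ζ i' (b l)) +
          Algebra.trace F E (z.re * w l) • (ζ i (a l) + ζ i' (a l))) := by
      intro l _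
      rw [map_add, map_add, hζ.o i i' z (a l) hii', hζ.o i i' z (b l) hii', add_zero, add_zero,
        p1, p2]
    rw [Finset.sum_congr rfl this, hz, ← add_assoc, addV h2, zero_add]
  · rw [t3]
    have : ∀ l ∈ Finset.univ, (pb Q (ζ i' z) (ζ i (a l) + ζ i' (a l)) • (ζ i (b l) + ζ i' (b l)) +
        pb Q (ζ i' z) (ζ i (b l) + ζ i' (b l)) • (ζ i (a l) + ζ i' (a l))) =
        (Algebra.trace F E (z.im * w l) • (ζ i (b l) + ζ i' (b l)) +
          Algebra.trace F E (z.re * w l) • (ζ i (a l) + ζ i' (a l))) := by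
      intro l _
      rw [map_add, map_add, hζ.o i' i z (a l) (Ne.symm hii'), hζ.o i' i z (b l) (Ne.symm hii'),
        zero_add, zero_add, p1, p2]
    rw [Finset.sum_congr rfl this, hz, add_comm (ζ i z) (ζ i' z), ← add_assoc, addV h2, zero_add]
  · rw [t3, Finset.sum_eq_zero, add_zero]
    intro l _
    rw [map_add, map_add, hζ.o m i z (a l) h1, hζ.o m i' z (a l) h3, hζ.o m i z (b l) h1,
      hζ.o m i' z (b l) h3, add_zero, zero_smul, zero_smul, add_zero]

end Pool.Agent.ORE
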